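import Mathlib

/-!
# The minimum weight of a triple in an automaton

In every automaton on `n` states in which some triple of states can be sent to a single state, some
triple can be sent to a single state by a word of length at most `9 n ^ 2 / 32 + n + 1`. So the
maximum `ρ*(3,n)` of the minimum triple weight is not asymptotic to `n ^ 2 / 2`.
-/

open Filter Topology

namespace Pool.Agent.Results.MP_f4a429_co.TripleWeight

/-- The action of a word (its first letter acts first). -/
def act {n : ℕ} (w : List (Fin n → Fin n)) (s : Fin n) : Fin n := w.foldl (fun s f => f s) s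

/-- `w` is a word whose letters are transition functions of the automaton `Ω`. -/
def IsWord {n : ℕ} (Ω : Set (Fin n → Fin n)) (w : List (Fin n → Fin n)) : Prop := ∀ f ∈ w, f ∈ Ω

/-- The word `w` maps all elements of `S` to one common state. -/
def Syncs {n : ℕ} (w : List (Fin n → Fin n)) (S : Finset (Fin n)) : Prop :=
  ∃ t, ∀ s ∈ S, act w s = t

/-- The weight of a set of states: the length of a shortest word which maps it to one state,
infinite if there is none. -/
noncomputable def weight {n : ℕ} (Ω : Set (Fin n → Fin n)) (S : Finset (Fin n)) : ℕ∞ :=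
  ⨅ (w : List (Fin n → Fin n)) (_ : IsWord Ω w) (_ : Syncs w S), (w.length : ℕ∞)

/-- The minimum weight of a triple of states. -/
noncomputable def m3 {n : ℕ} (Ω : Set (Fin n → Fin n)) : ℕ∞ :=
  ⨅ (S : Finset (Fin n)) (_ : S.card = 3), weight Ω S

/-- The maximum of the minimum triple weight over all automata on `n` states having a
synchronizable triple. -/
noncomputable def rho (n : ℕ) : ℕ∞ := ⨆ (Ω : Set (Fin n → Fin n)) (_ : m3 Ω ≠ ⊤), m3 Ω

section

variable {n : ℕ} {Ω : Set (Fin n → Fin n)}

lemma act_cons (f : Fin n → Fin n) (w : List (Fin n → Fin n)) (s : Fin n) :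
    act (f :: w) s = act w (f s) := rfl

lemma act_append (u v : List (Fin n → Fin n)) (s : Fin n) : act (u ++ v) s = act v (act u s) := by
  unfold act
  rw [List.foldl_append]

lemma act_split (w : List (Fin n → Fin n)) (j : ℕ) (s : Fin n) :
    act (w.drop j) (act (w.take j) s) = act w s := by
  rw [← act_append, List.take_append_drop]

lemma IsWord.append {u v : List (Fin n → Fin n)} (hu : IsWord Ω u) (hv : IsWord Ω v) :
    IsWord Ω (u ++ v) := by
  intro f hf
  rw [List.mem_append] at hf
  exact hf.elim (hu f) (hv f)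

lemma IsWord.take {u : List (Fin n → Fin n)} (hu : IsWord Ω u) (j : ℕ) : IsWord Ω (u.take j) :=
  fun f hf => hu f (List.mem_of_mem_take hf)

lemma IsWord.drop {u : List (Fin n → Fin n)} (hu : IsWord Ω u) (j : ℕ) : IsWord Ω (u.drop j) :=
  fun f hf => hu f (List.mem_of_mem_drop hf)

/-- A reachable state is reachable by a word shorter than the number of states. -/
lemma short {p y : Fin n} (h : ∃ v, IsWord Ω v ∧ act v p = y) :
    ∃ v, IsWord Ω v ∧ act v p = y ∧ v.length + 1 ≤ n := by
  classical
  have hP : ∃ l, ∃ v, IsWord Ω v ∧ act v p = y ∧ v.length = l := by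
    obtain ⟨v, h1, h2⟩ := h
    exact ⟨v.length, v, h1, h2, rfl⟩
  obtain ⟨v, h1, h2, h3⟩ := Nat.find_spec hP
  refine ⟨v, h1, h2, ?_⟩
  have hinj : Function.Injective fun i : Fin (v.length + 1) => act (v.take i) p := by
    have key : ∀ i j : ℕ, i < j → j ≤ v.length → act (v.take i) p ≠ act (v.take j) p := by
      intro i j hij hj he
      have h4 : Nat.find hP ≤ (v.take i ++ v.drop j).length := by
        apply Nat.find_min'
        refine ⟨v.take i ++ v.drop j, (h1.take i).append (h1.drop j), ?_, rfl⟩
        rw [act_append, he, act_split, h2]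
      rw [← h3, List.length_append, List.length_take, List.length_drop] at h4
      omega
    intro i j hij
    rcases lt_trichotomy i.1 j.1 with h | h | h
    · exact absurd hij (key _ _ h (by have := j.2; omega))
    · exact Fin.ext h
    · exact absurd hij.symm (key _ _ h (by have := i.2; omega))
  have := Fintype.card_le_of_injective _ hinj
  simpa using this

/-- The main bound. -/
theorem bound {m : ℕ} (h1 : ∃ (S : Finset (Fin n)) (w : List (Fin n → Fin n)), S.card = 3 ∧
      IsWord Ω w ∧ Syncs w S ∧ w.length = m)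
    (hmin : ∀ (S : Finset (Fin n)) (w : List (Fin n → Fin n)), S.card = 3 →
      IsWord Ω w → Syncs w S → m ≤ w.length) :
    32 * m ≤ 9 * n ^ 2 + 32 * n + 32 := by
  classical
  by_cases hmn : m ≤ n + 1
  · nlinarith
  push Not at hmn
  obtain ⟨S, w, hS, hw, ⟨t, ht⟩, hlen⟩ := h1
  rcases w with _ | ⟨c, w'⟩
  · simp at hlen
    omega
  have hw' : IsWord Ω w' := fun f hf => hw f (List.mem_cons_of_mem _ hf)
  have hc : c ∈ Ω := hw c List.mem_cons_self
  rw [List.length_cons] at hlen
  -- the first letter merges two elements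
  obtain ⟨x, hx, y, hy, hxy, hcxy⟩ : ∃ x ∈ S, ∃ y ∈ S, x ≠ y ∧ c x = c y := by
    by_contra hcon
    push Not at hcon
    have h2 : (S.image c).card = 3 := by
      rw [Finset.card_image_of_injOn, hS]
      intro a ha b hb hab
      by_contra hne
      exact hcon a ha b hb hne hab
    have h3 := hmin (S.image c) w' h2 hw' ⟨t, by
      intro s hs
      rw [Finset.mem_image] at hs
      obtain ⟨s', hs', rfl⟩ := hs
      exact ht s' hs'⟩
    omega
  obtain ⟨z, hz, hzx, hzy⟩ : ∃ z ∈ S, z ≠ x ∧ z ≠ y := by
    by_contra hcon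
    push Not at hcon
    have h2 : S ⊆ {x, y} := by
      intro s hs
      rw [Finset.mem_insert, Finset.mem_singleton]
      by_cases h : s = x
      · exact Or.inl h
      · exact Or.inr (hcon s hs h)
    have h3 := Finset.card_le_card h2
    have h4 : ({x, y} : Finset (Fin n)).card ≤ 2 := Finset.card_le_two
    omega
  -- a word which merges the images merges a triple
  have F1 : ∀ u : List (Fin n → Fin n), IsWord Ω u → ∀ z', z' ≠ x → z' ≠ y →
      act u (c x) = act u (c z') → m ≤ u.length + 1 := by
    intro u hu z' h1 h2 h3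
    have h4 : ({x, y, z'} : Finset (Fin n)).card = 3 := by
      rw [Finset.card_eq_three]
      exact ⟨x, y, z', hxy, h1.symm, h2.symm, rfl⟩
    have h5 := hmin {x, y, z'} (c :: u) h4 (by
      intro f hf
      rw [List.mem_cons] at hf
      rcases hf with rfl | hf
      · exact hc
      · exact hu f hf) ⟨act u (c x), by
      intro s hs
      simp only [Finset.mem_insert, Finset.mem_singleton] at hs
      rcases hs with rfl | rfl | rfl
      · rfl
      · rw [act_cons, hcxy]
      · rw [act_cons, h3]⟩
    simpa using h5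
  -- reachable states
  set R : Finset (Fin n) := Finset.univ.filter fun r => ∃ v, IsWord Ω v ∧ act v (c x) = r with hR
  let Low : Fin n → Fin n → Prop := fun r u => r ≠ u ∧ ∃ v, IsWord Ω v ∧ act v r = act v u ∧
    v.length + n + 1 ≤ m
  have Low_symm : ∀ r u, Low r u → Low u r := by
    rintro r u ⟨h1, v, h2, h3, h4⟩
    exact ⟨h1.symm, v, h2, h3.symm, h4⟩
  have hdeg : ∀ r ∈ R, 2 * (Finset.univ.filter fun u => Low r u).card ≤ n := by
    intro r hr
    rw [hR, Finset.mem_filter] at hr
    obtain ⟨v, hv, hvr, hvl⟩ := short hr.2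
    set I : Finset (Fin n) := Finset.univ.image (act (c :: v)) with hI
    have hcv : IsWord Ω (c :: v) := by
      intro f hf
      rw [List.mem_cons] at hf
      rcases hf with rfl | hf
      · exact hc
      · exact hv f hf
    have h2 : n ≤ 2 * I.card := by
      have h3 := Finset.card_le_mul_card_image (f := act (c :: v))
        (Finset.univ : Finset (Fin n)) 2 (by
        intro b _
        by_contra hcon
        push Not at hcon
        obtain ⟨T, hT, hT3⟩ := Finset.exists_subset_card_eq (n := 3) hcon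
        have h4 := hmin T (c :: v) hT3 hcv ⟨b, fun s hs => by
          have := hT hs
          rw [Finset.mem_filter] at this
          exact this.2⟩
        rw [List.length_cons] at h4
        omega)
      rwa [Finset.card_univ, Fintype.card_fin] at h3
    have h5 : (Finset.univ.filter fun u => Low r u) ⊆ Iᶜ := by
      intro u hu
      rw [Finset.mem_filter] at hu
      obtain ⟨-, hne, v2, hv2, hm, hl⟩ := hu
      rw [Finset.mem_compl, hI, Finset.mem_image]
      rintro ⟨z', -, hz'⟩
      rw [act_cons] at hz'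
      have hz1 : z' ≠ x := by
        rintro rfl
        exact hne (by rw [← hvr, hz'])
      have hz2 : z' ≠ y := by
        rintro rfl
        exact hne (by rw [← hvr, hcxy, hz'])
      have h6 := F1 (v ++ v2) (hv.append hv2) z' hz1 hz2 (by
        rw [act_append, act_append, hvr, hz', hm])
      rw [List.length_append] at h6
      omega
    have h6 := Finset.card_le_card h5
    rw [Finset.card_compl, Fintype.card_fin] at h6
    omega
  -- the path
  set al : ℕ → Fin n := fun j => act (w'.take j) (c x) with hal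
  set be : ℕ → Fin n := fun j => act (w'.take j) (c z) with hbe
  have hfin : act w' (c x) = act w' (c z) := by
    have e1 := ht x hx
    have e2 := ht z hz
    rw [act_cons] at e1 e2
    rw [e1, e2]
  have hne : ∀ j, j < m - 1 → al j ≠ be j := by
    intro j hj he
    have := F1 (w'.take j) (hw'.take j) z hzx hzy he
    rw [List.length_take] at this
    omega
  have hdist : ∀ i j, i < j → j < m - 1 →
      ¬ ((al i = al j ∧ be i = be j) ∨ (al i = be j ∧ be i = al j)) := by
    intro i j hij hj hcon
    have h2 : act (w'.take i ++ w'.drop j) (c x) = act (w'.take i ++ w'.drop j) (c z) := by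
      rw [act_append, act_append]
      change act (w'.drop j) (al i) = act (w'.drop j) (be i)
      rcases hcon with ⟨h3, h4⟩ | ⟨h3, h4⟩
      · rw [h3, h4]
        change act (w'.drop j) (act (w'.take j) (c x)) = act (w'.drop j) (act (w'.take j) (c z))
        rw [act_split, act_split, hfin]
      · rw [h3, h4]
        change act (w'.drop j) (act (w'.take j) (c z)) = act (w'.drop j) (act (w'.take j) (c x))
        rw [act_split, act_split, hfin]
    have h3 := F1 _ ((hw'.take i).append (hw'.drop j)) z hzx hzy h2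
    rw [List.length_append, List.length_take, List.length_drop] at h3
    omega
  have halR : ∀ j, al j ∈ R := by
    intro j
    rw [hR, Finset.mem_filter]
    exact ⟨Finset.mem_univ _, w'.take j, hw'.take j, rfl⟩
  have hlow : ∀ j, n ≤ j → j < m - 1 → Low (al j) (be j) := by
    intro j hj hj'
    refine ⟨hne j hj', w'.drop j, hw'.drop j, ?_, ?_⟩
    · change act (w'.drop j) (act (w'.take j) (c x)) = act (w'.drop j) (act (w'.take j) (c z))
      rw [act_split, act_split, hfin]
    · rw [List.length_drop]
      omega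
  set J : Finset ℕ := Finset.Ico n (m - 1) with hJ
  set Jin : Finset ℕ := J.filter fun j => be j ∈ R with hJin
  set Jout : Finset ℕ := J.filter fun j => be j ∉ R with hJout
  have hJsum : Jin.card + Jout.card = J.card :=
    Finset.card_filter_add_card_filter_not _
  have hJc : J.card = m - 1 - n := by
    rw [hJ, Nat.card_Ico]
  have hJm : ∀ j ∈ J, n ≤ j ∧ j < m - 1 := fun j hj => Finset.mem_Ico.1 hj
  have hinj1 : ∀ i ∈ J, ∀ j ∈ J, (al i, be i) = (al j, be j) → i = j := by
    intro i hi j hj h
    rw [Prod.mk.injEq] at h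
    rcases lt_trichotomy i j with h1 | h1 | h1
    · exact absurd (Or.inl h) (hdist i j h1 (hJm j hj).2)
    · exact h1
    · exact absurd (Or.inl ⟨h.1.symm, h.2.symm⟩) (hdist j i h1 (hJm i hi).2)
  have hinj2 : ∀ i ∈ J, ∀ j ∈ J, (al i, be i) ≠ (be j, al j) := by
    intro i hi j hj h
    rw [Prod.mk.injEq] at h
    rcases lt_trichotomy i j with h1 | h1 | h1
    · exact hdist i j h1 (hJm j hj).2 (Or.inr h)
    · subst h1
      exact hne i (hJm i hi).2 h.1
    · exact hdist j i h1 (hJm i hi).2 (Or.inr ⟨h.2.symm, h.1.symm⟩)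
  set LO : Finset (Fin n × Fin n) := (R ×ˢ Finset.univ).filter fun q => Low q.1 q.2 with hLO
  have hLOc : 2 * LO.card ≤ R.card * n := by
    have h2 : LO.card = ∑ r ∈ R, (Finset.univ.filter fun u => Low r u).card := by
      rw [hLO, Finset.card_filter, Finset.sum_product]
      exact Finset.sum_congr rfl fun r _ => (Finset.card_filter _ _).symm
    rw [h2, Finset.mul_sum]
    calc ∑ r ∈ R, 2 * (Finset.univ.filter fun u => Low r u).card ≤ ∑ r ∈ R, n :=
          Finset.sum_le_sum fun r hr => hdeg r hr
      _ = R.card * n := by rw [Finset.sum_const, smul_eq_mul]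
  have hin : J.card + Jin.card ≤ LO.card := by
    have e1 : (J.image fun j => (al j, be j)).card = J.card :=
      Finset.card_image_of_injOn fun i hi j hj h => hinj1 i hi j hj h
    have e2 : (Jin.image fun j => (be j, al j)).card = Jin.card := by
      apply Finset.card_image_of_injOn
      intro i hi j hj h
      simp only [Prod.mk.injEq] at h
      exact hinj1 i (Finset.mem_of_mem_filter i hi) j (Finset.mem_of_mem_filter j hj)
        (by rw [h.1, h.2])
    rw [← e1, ← e2, ← Finset.card_union_of_disjoint]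
    · apply Finset.card_le_card
      intro q hq
      rw [Finset.mem_union, Finset.mem_image, Finset.mem_image] at hq
      rw [hLO, Finset.mem_filter, Finset.mem_product]
      rcases hq with ⟨j, hj, rfl⟩ | ⟨j, hj, rfl⟩
      · exact ⟨⟨halR j, Finset.mem_univ _⟩, hlow j (hJm j hj).1 (hJm j hj).2⟩
      · rw [hJin, Finset.mem_filter] at hj
        exact ⟨⟨hj.2, Finset.mem_univ _⟩,
          Low_symm _ _ (hlow j (hJm j hj.1).1 (hJm j hj.1).2)⟩
    · rw [Finset.disjoint_left]
      intro q hq hq'
      rw [Finset.mem_image] at hq hq'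
      obtain ⟨i, hi, rfl⟩ := hq
      obtain ⟨j, hj, h⟩ := hq'
      exact hinj2 i hi j (Finset.mem_of_mem_filter j hj) h.symm
  have hout : Jout.card ≤ R.card * (n - R.card) := by
    have e1 : (Jout.image fun j => (al j, be j)).card = Jout.card :=
      Finset.card_image_of_injOn fun i hi j hj h =>
        hinj1 i (Finset.mem_of_mem_filter i hi) j (Finset.mem_of_mem_filter j hj) h
    rw [← e1]
    have e2 : (Jout.image fun j => (al j, be j)) ⊆ R ×ˢ Rᶜ := by
      intro q hq
      rw [Finset.mem_image] at hq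
      obtain ⟨j, hj, rfl⟩ := hq
      rw [hJout, Finset.mem_filter] at hj
      rw [Finset.mem_product, Finset.mem_compl]
      exact ⟨halR j, hj.2⟩
    refine (Finset.card_le_card e2).trans ?_
    rw [Finset.card_product, Finset.card_compl, Fintype.card_fin]
  have hRn : R.card ≤ n := by
    have := Finset.card_le_univ R
    rwa [Fintype.card_fin] at this
  obtain ⟨s, hs⟩ := Nat.exists_eq_add_of_le hRn
  have hs' : n - R.card = s := by omega
  rw [hs'] at hout
  have h4 : 4 * J.card ≤ R.card * n + 2 * (R.card * s) := by omega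
  have h5 : 32 * J.card ≤ 9 * n ^ 2 := by
    zify at h4 hs ⊢
    have hs2 : (s : ℤ) = n - R.card := by linarith
    rw [hs2] at h4
    nlinarith [sq_nonneg (4 * (R.card : ℤ) - 3 * n)]
  omega

end

lemma m3_spec {n : ℕ} {Ω : Set (Fin n → Fin n)} (h : m3 Ω ≠ ⊤) :
    ∃ m : ℕ, m3 Ω = m ∧ 32 * m ≤ 9 * n ^ 2 + 32 * n + 32 := by
  classical
  have hP : ∃ m : ℕ, ∃ (S : Finset (Fin n)) (w : List (Fin n → Fin n)), S.card = 3 ∧
      IsWord Ω w ∧ Syncs w S ∧ w.length = m := by
    by_contra hcon
    apply h
    unfold m3 weight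
    simp only [iInf_eq_top]
    intro S hS w hw hs
    exact absurd ⟨w.length, S, w, hS, hw, hs, rfl⟩ hcon
  have h1 := Nat.find_spec hP
  have h2 : ∀ (S : Finset (Fin n)) (w : List (Fin n → Fin n)), S.card = 3 →
      IsWord Ω w → Syncs w S → Nat.find hP ≤ w.length :=
    fun S w a b c => Nat.find_min' hP ⟨S, w, a, b, c, rfl⟩
  refine ⟨Nat.find hP, le_antisymm ?_ ?_, bound h1 h2⟩
  · obtain ⟨S, w, a, b, c, d⟩ := h1
    unfold m3 weight
    refine (iInf_le _ S).trans ((iInf_le _ a).trans ((iInf_le _ w).trans ((iInf_le _ b).trans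
      ((iInf_le _ c).trans ?_))))
    rw [d]
  · unfold m3 weight
    refine le_iInf fun S => le_iInf fun a => le_iInf fun w => le_iInf fun b => le_iInf fun c => ?_
    exact_mod_cast h2 S w a b c

/-- `ρ*(3,n) ≤ (9 n ^ 2 + 32 n + 32) / 32` for all `n`; so `ρ*(3,n)` is not `(1/2 + o(1)) n ^ 2`. -/
theorem result : (∀ n : ℕ, 32 * rho n ≤ (9 * n ^ 2 + 32 * n + 32 : ℕ)) ∧
    ¬ Tendsto (fun n : ℕ => ((rho n).toNat : ℝ) / (n : ℝ) ^ 2) atTop (𝓝 (1 / 2)) := by
  have hb : ∀ n : ℕ, rho n ≤ ((9 * n ^ 2 + 32 * n + 32) / 32 : ℕ) := by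
    intro n
    unfold rho
    refine iSup_le fun Ω => iSup_le fun h => ?_
    obtain ⟨m, hm, hb⟩ := m3_spec h
    rw [hm]
    have : m ≤ (9 * n ^ 2 + 32 * n + 32) / 32 := by
      rw [Nat.le_div_iff_mul_le (by norm_num)]
      omega
    exact_mod_cast this
  have h1 : ∀ n : ℕ, 32 * rho n ≤ (9 * n ^ 2 + 32 * n + 32 : ℕ) := by
    intro n
    calc 32 * rho n ≤ 32 * (((9 * n ^ 2 + 32 * n + 32) / 32 : ℕ) : ℕ∞) := by
          gcongr
          exact hb n
      _ = ((32 * ((9 * n ^ 2 + 32 * n + 32) / 32) : ℕ) : ℕ∞) := by push_cast; rfl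
      _ ≤ _ := by
          exact_mod_cast Nat.mul_div_le _ _
  refine ⟨h1, fun hT => ?_⟩
  have h2 : ∀ n : ℕ, ((rho n).toNat : ℝ) ≤ 9 / 32 * (n : ℝ) ^ 2 + n + 1 := by
    intro n
    have h3 : (rho n).toNat ≤ (9 * n ^ 2 + 32 * n + 32) / 32 := ENat.toNat_le_of_le_natCast (hb n)
    have h4 : 32 * (rho n).toNat ≤ 9 * n ^ 2 + 32 * n + 32 := by
      calc 32 * (rho n).toNat ≤ 32 * ((9 * n ^ 2 + 32 * n + 32) / 32) :=
            Nat.mul_le_mul_left _ h3
        _ ≤ _ := Nat.mul_div_le _ _
    have h5 : (32 : ℝ) * ((rho n).toNat : ℝ) ≤ 9 * (n : ℝ) ^ 2 + 32 * n + 32 := by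
      exact_mod_cast h4
    linarith
  have h3 : Tendsto (fun n : ℕ => 9 / 32 + 1 / (n : ℝ) + 1 / (n : ℝ) * (1 / (n : ℝ))) atTop
      (𝓝 (9 / 32 + 0 + 0 * 0)) := by
    have h4 := tendsto_one_div_atTop_nhds_zero_nat (𝕜 := ℝ)
    exact (tendsto_const_nhds.add h4).add (h4.mul h4)
  have h5 : ∀ᶠ n : ℕ in atTop, ((rho n).toNat : ℝ) / (n : ℝ) ^ 2
      ≤ 9 / 32 + 1 / (n : ℝ) + 1 / (n : ℝ) * (1 / (n : ℝ)) := by
    filter_upwards [eventually_gt_atTop 0] with n hn
    have hn' : (0 : ℝ) < n := by exact_mod_cast hn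
    rw [div_le_iff₀ (by positivity)]
    have h6 := h2 n
    have h7 : (9 / 32 + 1 / (n : ℝ) + 1 / (n : ℝ) * (1 / (n : ℝ))) * (n : ℝ) ^ 2
        = 9 / 32 * (n : ℝ) ^ 2 + n + 1 := by
      field_simp
    rw [h7]
    exact h6
  have h6 := le_of_tendsto_of_tendsto hT h3 h5
  norm_num at h6

end Pool.Agent.Results.MP_f4a429_co.TripleWeight
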